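import Pool.Agent.Helper13.ZL.Stmts

/-! # MP_8312c9_nt, zero-one law: module COI -/

set_option autoImplicit false

open scoped Classical

namespace Pool.Agent.Helper13.ZL

open Pool.Agent.Helper14.BSC

theorem coi_add {p : ℕ} [Fact p.Prime] {a b : ℂ_[p]} {r : ℝ} (ha : ‖a‖ < r) (hb : ‖b‖ < r) :
    ‖a + b‖ < r :=
  (IsUltrametricDist.norm_add_le_max _ _).trans_lt (max_lt ha hb)

theorem coi_eq {p : ℕ} [Fact p.Prime] {a b : ℂ_[p]} (h : ‖a - b‖ < ‖b‖) : ‖a‖ = ‖b‖ := by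
  apply le_antisymm
  · have : a = (a - b) + b := by ring
    rw [this]
    exact (IsUltrametricDist.norm_add_le_max _ _).trans (max_le h.le le_rfl)
  · by_contra hcon
    push Not at hcon
    have h1 : ‖(b - a) + a‖ < ‖b‖ := by
      apply coi_add _ hcon
      rw [norm_sub_rev]
      exact h
    rw [sub_add_cancel] at h1
    exact lt_irrefl _ h1

theorem coi_one {p : ℕ} [Fact p.Prime] {a : ℂ_[p]} (h : ‖a - 1‖ < 1) : ‖a‖ = 1 := by
  have h1 : ‖(1 : ℂ_[p])‖ = 1 := norm_one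
  rw [← h1] at h
  have := coi_eq (b := (1 : ℂ_[p])) (by rw [h1] at h ⊢; exact h)
  rw [this, h1]

theorem st_COI (hE : ST_EFIN) : ST_COI := by
  intro k Ω _ _ _ _ _ D v p _ σ P hov x hx hco
  obtain ⟨e, N, he, hN, hEF⟩ := hE p P.E P.finE
  have hp1 : (1 : ℝ) < p := by exact_mod_cast (Fact.out : p.Prime).one_lt
  have hp0 : (0 : ℝ) < p := by linarith
  -- near classes have norm one
  have hnear : ∀ b : k, Near v b → ‖σ b - 1‖ < 1 := by
    intro b hb
    have := (hov (b - 1)).1 hb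
    rwa [map_sub, map_one] at this
  have hxpos : 0 < ‖P.φ x‖ := norm_pos_iff.2 hx
  -- step 1: exponent of the norm of the value
  have hi : ∃ i : ℤ, ‖P.φ x‖ ^ e = (p : ℝ) ^ i := by
    obtain ⟨b, g, hbg, hb⟩ := hco 1 one_pos
    obtain ⟨w, hw, y, hy, hyx, hσ⟩ := P.kum x hx 1 one_pos _ hxpos b g hbg
    have hny : ‖y‖ = ‖P.φ x‖ := coi_eq hyx
    have hy0 : y ≠ 0 := by
      intro h0
      rw [h0, norm_zero] at hny
      exact hxpos.ne hny
    obtain ⟨⟨i, hi⟩, -⟩ := hEF y hy hy0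
    exact ⟨i, by rw [← hny]; exact hi⟩
  obtain ⟨i, hi⟩ := hi
  -- step 2: the norm of the value is one
  have hone : ‖P.φ x‖ = 1 := by
    obtain ⟨b, g, hbg, hb⟩ := hco (i.natAbs + 1) (Nat.succ_pos _)
    obtain ⟨w, hw, y, hy, hyx, hσ⟩ := P.kum x hx _ (Nat.succ_pos _) _ hxpos b g hbg
    have hny : ‖y‖ = ‖P.φ x‖ := coi_eq hyx
    have hσ1 : ‖σ b‖ = 1 := coi_one (hnear b hb)
    have hprod : ‖P.φ x‖ * ‖w‖ ^ (i.natAbs + 1) = 1 := by
      rw [← hσ1, hσ, norm_mul, norm_pow, hny]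
    have hw0 : w ≠ 0 := by
      intro h0
      rw [h0, norm_zero, zero_pow (Nat.succ_ne_zero _), mul_zero] at hprod
      exact zero_ne_one hprod
    obtain ⟨⟨j, hj⟩, -⟩ := hEF w hw hw0
    have h1 : (p : ℝ) ^ (i + j * ((i.natAbs : ℤ) + 1)) = (p : ℝ) ^ (0 : ℤ) := by
      rw [zpow_zero, zpow_add₀ hp0.ne', ← hi, zpow_mul, ← hj]
      have h2 : (‖w‖ ^ e) ^ ((i.natAbs : ℤ) + 1) = (‖w‖ ^ (i.natAbs + 1)) ^ e := by
        have : ((i.natAbs : ℤ) + 1) = ((i.natAbs + 1 : ℕ) : ℤ) := by push_cast; rfl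
        rw [this, zpow_natCast, ← pow_mul, ← pow_mul, mul_comm]
      rw [h2, ← mul_pow, hprod, one_pow]
    have h3 : i + j * ((i.natAbs : ℤ) + 1) = 0 :=
      zpow_right_injective₀ hp0 hp1.ne' h1
    have h4 : i = 0 := by
      have hdvd : ((i.natAbs : ℤ) + 1) ∣ i := ⟨-j, by linarith⟩
      have h5 : (i.natAbs + 1) ∣ i.natAbs := by
        have := Int.natAbs_dvd_natAbs.2 hdvd
        have h6 : ((i.natAbs : ℤ) + 1).natAbs = i.natAbs + 1 := by omega
        rwa [h6] at this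
      have h7 : i.natAbs = 0 := Nat.eq_zero_of_dvd_of_lt h5 (Nat.lt_succ_self _)
      exact Int.natAbs_eq_zero.1 h7
    rw [h4, zpow_zero] at hi
    exact (pow_eq_one_iff_of_nonneg hxpos.le he.ne').1 hi
  -- step 3
  obtain ⟨b, g, hbg, hb⟩ := hco N hN
  obtain ⟨w, hw, y, hy, hyx, hσ⟩ := P.kum x hx N hN 1 one_pos b g hbg
  have hny : ‖y‖ = 1 := by
    rw [← hone]
    apply coi_eq
    rw [hone]
    exact hyx
  have hσ1 : ‖σ b‖ = 1 := coi_one (hnear b hb)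
  have hprod : ‖w‖ ^ N = 1 := by
    have := hσ1
    rw [hσ, norm_mul, norm_pow, hny, one_mul] at this
    exact this
  have hw1 : ‖w‖ = 1 := (pow_eq_one_iff_of_nonneg (norm_nonneg _) hN.ne').1 hprod
  have hw0 : w ≠ 0 := by
    intro h0
    rw [h0, norm_zero] at hw1
    exact zero_ne_one hw1
  obtain ⟨-, hwN⟩ := hEF w hw hw0
  have h8 : ‖y - σ b‖ < 1 := by
    have : y - σ b = -(y * (w ^ N - 1)) := by rw [hσ]; ring
    rw [this, norm_neg, norm_mul, hny, one_mul]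
    exact hwN hw1
  have h9 : P.φ x - 1 = -(y - P.φ x) + ((y - σ b) + (σ b - 1)) := by ring
  rw [h9]
  apply coi_add
  · rw [norm_neg]
    exact hyx
  · exact coi_add h8 (hnear b hb)

end Pool.Agent.Helper13.ZL
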