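import Pool.Agent.Helper13.ZL.Stmts

/-! # MP_8312c9_nt, zero-one law: module COP -/

set_option autoImplicit false

open scoped Classical

namespace Pool.Agent.Helper13.ZL

open Pool.Agent.Helper14.BSC

theorem cop_add {p : ℕ} [Fact p.Prime] {a b : ℂ_[p]} {r : ℝ} (ha : ‖a‖ < r) (hb : ‖b‖ < r) :
    ‖a + b‖ < r :=
  (IsUltrametricDist.norm_add_le_max _ _).trans_lt (max_lt ha hb)

theorem cop_one {p : ℕ} [Fact p.Prime] {a : ℂ_[p]} (h : ‖a - 1‖ < 1) : ‖a‖ = 1 := by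
  have h1 : ‖(1 : ℂ_[p])‖ = 1 := norm_one
  apply le_antisymm
  · have : a = (a - 1) + 1 := by ring
    rw [this]
    exact (IsUltrametricDist.norm_add_le_max _ _).trans (max_le h.le h1.le)
  · by_contra hcon
    push Not at hcon
    have h2 : ‖(1 - a) + a‖ < 1 := by
      apply cop_add _ hcon
      rw [norm_sub_rev]
      exact h
    rw [sub_add_cancel, h1] at h2
    exact lt_irrefl _ h2

/-- powers of elements close to one are close to one -/
theorem cop_pow {p : ℕ} [Fact p.Prime] {a : ℂ_[p]} (h : ‖a - 1‖ < 1) (n : ℕ) :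
    ‖a ^ n - 1‖ < 1 := by
  induction n with
  | zero => simp
  | succ n ih =>
    have : a ^ (n + 1) - 1 = a * (a ^ n - 1) + (a - 1) := by ring
    rw [this]
    apply cop_add _ h
    rw [norm_mul, cop_one h, one_mul]
    exact ih

theorem st_COP (hK : ST_KUM) (hB : ST_BOT) (hE : ST_EFIN) (hV : ST_VALU) : ST_COP := by
  intro k Ω _ _ _ _ _ D v p _ σ P hov x hx
  have hφ1 : ‖P.φ x‖ = 1 := cop_one hx
  have hφ0 : P.φ x ≠ 0 := by
    intro h0
    rw [h0, norm_zero] at hφ1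
    exact zero_ne_one hφ1
  obtain ⟨e, N₀, he, hN₀, hEF⟩ := hE p P.E P.finE
  have hxne : (x : LL D) ≠ 0 := fun h0 => hφ0 ((P.ker x).2 (Or.inl h0))
  intro N hN
  have hM : 0 < N * N₀ := Nat.mul_pos hN hN₀
  obtain ⟨c, hc0, y, hy0, hxc⟩ := hK k Ω D ∅ (N * N₀) hM (x : LL D) hxne
  obtain ⟨c₀, hc₀⟩ := hB k Ω (c : Acl k Ω) c.2
  have hinc : inc D ∅ c = algebraMap k (LL D) c₀ := by
    apply Subtype.ext
    rw [coe_inc, hc₀]
    rfl
  rw [hinc] at hxc
  obtain ⟨h1, -⟩ := hV k Ω D v p σ P hov x hφ0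
  obtain ⟨t, ht⟩ := h1 hφ1 (N * N₀) hM c₀ y hxc
  have ht0 : t ≠ 0 := by
    intro h0
    rw [h0, zero_pow hM.ne', mul_zero, map_zero] at ht
    exact zero_ne_one ht
  have htL : algebraMap k (LL D) t ≠ 0 := by
    rw [Ne, map_eq_zero]
    exact ht0
  set b : k := c₀ * t ^ (N * N₀) with hb
  set g : LL D := y / algebraMap k (LL D) t with hg
  have hxb : (x : LL D) = algebraMap k (LL D) b * g ^ (N * N₀) := by
    rw [hxc, hb, hg, map_mul, map_pow, div_pow]
    field_simp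
  obtain ⟨w, hw, z, hz, hzx, hσ⟩ := P.kum x hφ0 (N * N₀) hM 1 one_pos b g hxb
  have hz1 : ‖z - 1‖ < 1 := by
    have : z - 1 = (z - P.φ x) + (P.φ x - 1) := by ring
    rw [this]
    exact cop_add hzx hx
  have hzn : ‖z‖ = 1 := cop_one hz1
  have hb0 : b ≠ 0 := by
    intro h0
    rw [h0, map_zero] at ht
    exact zero_ne_one ht
  have hσb : ‖σ b‖ = 1 := by
    apply le_antisymm
    · by_contra hcon
      push Not at hcon
      have h2 : ‖σ b⁻¹‖ < 1 := by
        rw [map_inv₀, norm_inv]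
        exact inv_lt_one_of_one_lt₀ hcon
      have h3 := (hov b⁻¹).2 h2
      rw [map_inv₀, ht, inv_one] at h3
      exact lt_irrefl _ h3
    · by_contra hcon
      push Not at hcon
      have h3 := (hov b).2 hcon
      rw [ht] at h3
      exact lt_irrefl _ h3
  have hwM : ‖w‖ ^ (N * N₀) = 1 := by
    have := hσb
    rw [hσ, norm_mul, norm_pow, hzn, one_mul] at this
    exact this
  have hw1 : ‖w‖ = 1 := (pow_eq_one_iff_of_nonneg (norm_nonneg _) hM.ne').1 hwM
  have hw0 : w ≠ 0 := by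
    intro h0
    rw [h0, norm_zero] at hw1
    exact zero_ne_one hw1
  obtain ⟨-, hwN⟩ := hEF w hw hw0
  have hwNN : ‖w ^ (N * N₀) - 1‖ < 1 := by
    rw [mul_comm N N₀, pow_mul]
    exact cop_pow (hwN hw1) N
  have hσ1 : ‖σ b - 1‖ < 1 := by
    have : σ b - 1 = z * (w ^ (N * N₀) - 1) + (z - 1) := by rw [hσ]; ring
    rw [this]
    apply cop_add _ hz1
    rw [norm_mul, hzn, one_mul]
    exact hwNN
  refine ⟨b, g ^ N₀, ?_, ?_⟩
  · rw [hxb, ← pow_mul, mul_comm N N₀]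
  · have h4 : ‖σ (b - 1)‖ < 1 := by
      rw [map_sub, map_one]
      exact hσ1
    exact (hov (b - 1)).2 h4

end Pool.Agent.Helper13.ZL
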